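import Pool.Agent.Y140.AW.Stm
set_option autoImplicit false
namespace Pool.Agent.Y686.AW
open Polynomial Pool.Agent.Y140.AW

/-- the solution of a linear system with invertible matrix over a subfield is in the subfield -/
lemma solve_mem {N : Type} [Field N] {F : Type} [Field F] [Algebra F N] (L : IntermediateField F N)
    {m : ℕ} (v : Fin m → N) (hv : Function.Injective v) (hvL : ∀ j, v j ∈ L) (ν : Fin m → N)
    (h : ∀ j, ∑ a : Fin m, ν a * v j ^ (a : ℕ) ∈ L) : ∀ a, ν a ∈ L := by
  classical
  let vL : Fin m → L := fun j => ⟨v j, hvL j⟩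
  let R : Fin m → L := fun j => ⟨_, h j⟩
  have hvi : Function.Injective vL := fun i j hij => hv (congrArg Subtype.val hij)
  have hdet : (Matrix.vandermonde vL).det ≠ 0 := Matrix.det_vandermonde_ne_zero_iff.2 hvi
  have hdet' : (Matrix.vandermonde v).det ≠ 0 := Matrix.det_vandermonde_ne_zero_iff.2 hv
  let w : Fin m → L := (Matrix.vandermonde vL)⁻¹.mulVec R
  have hw : (Matrix.vandermonde vL).mulVec w = R := by
    show (Matrix.vandermonde vL).mulVec ((Matrix.vandermonde vL)⁻¹.mulVec R) = R
    rw [Matrix.mulVec_mulVec, Matrix.mul_nonsing_inv _ (isUnit_iff_ne_zero.2 hdet),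
      Matrix.one_mulVec]
  have h1 : (Matrix.vandermonde v).mulVec (fun a => ν a - (w a : N)) = 0 := by
    funext j
    have h2 : ((∑ a : Fin m, (vL j) ^ (a : ℕ) * w a : L) : N) = ∑ a : Fin m, ν a * v j ^ (a : ℕ) := by
      have h3 := congrFun hw j
      have h4 : (Matrix.vandermonde vL).mulVec w j = ∑ a : Fin m, (vL j) ^ (a : ℕ) * w a := by
        simp [Matrix.mulVec, dotProduct, Matrix.vandermonde_apply]
      rw [← h4, h3]
    have h5 : (Matrix.vandermonde v).mulVec (fun a => ν a - (w a : N)) j =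
        ∑ a : Fin m, v j ^ (a : ℕ) * (ν a - (w a : N)) := by
      simp [Matrix.mulVec, dotProduct, Matrix.vandermonde_apply]
    rw [h5]
    have h6 : ((∑ a : Fin m, (vL j) ^ (a : ℕ) * w a : L) : N) =
        ∑ a : Fin m, v j ^ (a : ℕ) * (w a : N) := by
      push_cast
      rfl
    rw [h6] at h2
    simp only [mul_sub, Finset.sum_sub_distrib, Pi.zero_apply]
    rw [h2, sub_eq_zero]
    exact Finset.sum_congr rfl fun a _ => mul_comm _ _
  have h7 := Matrix.eq_zero_of_mulVec_eq_zero hdet' h1
  intro a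
  have h8 := congrFun h7 a
  have h9 : ν a = (w a : N) := sub_eq_zero.1 h8
  rw [h9]
  exact (w a).2

theorem t_indep : St_indep := by
  classical
  intro p _ K K₀ N _ _ _ _ _ _ _ _ _ _ Θ D₀ D d B m hDD hD ν s hb x θ hx hpt
  have hcN : CharP N p := charP_of_injective_algebraMap (algebraMap K N).injective p
  let y : Fin m ⊕ Unit → N := Sum.elim x fun _ => s
  let F₁ : IntermediateField K₀ N := IntermediateField.adjoin K₀ (Set.range y)
  have hsc : IsScalarTower K F₁ N := IsScalarTower.of_algebraMap_eq fun z => rfl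
  have hxF : ∀ j, x j ∈ F₁ := fun j => IntermediateField.subset_adjoin K₀ _ ⟨Sum.inl j, rfl⟩
  have hsF : s ∈ F₁ := IntermediateField.subset_adjoin K₀ _ ⟨Sum.inr (), rfl⟩
  let L : IntermediateField F₁ N := algebraicClosure F₁ N
  have hL : ∀ z : N, z ∈ L ↔ IsAlgebraic F₁ z := fun z => mem_algebraicClosure_iff
  have hFL : ∀ z ∈ F₁, z ∈ L := fun z hz =>
    (hL z).2 (isAlgebraic_algebraMap (⟨z, hz⟩ : F₁))
  have hxL : ∀ j, x j ∈ L := fun j => hFL _ (hxF j)
  have hsL : s ∈ L := hFL _ hsF
  -- polynomials in `x j`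
  have hpolyL : ∀ (P : K[X]) (j : Fin m), aeval (x j) P ∈ L := by
    intro P j
    refine hFL _ ?_
    have h1 : aeval (x j) P = algebraMap F₁ N (aeval (⟨x j, hxF j⟩ : F₁) P) := by
      rw [← aeval_algebraMap_apply]
      rfl
    rw [h1]
    exact (aeval (⟨x j, hxF j⟩ : F₁) P).2
  have hθL : ∀ j, θ j ∈ L := by
    intro j
    rw [hL]
    have h1 := (hpt j).1
    have hint : IsIntegral F₁ (θ j) := by
      refine ⟨Θ.map (aeval (⟨x j, hxF j⟩ : F₁) : K[X] →ₐ[K] F₁).toRingHom,
        hDD.monic.map _, ?_⟩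
      rw [Polynomial.eval₂_eq_eval_map, Polynomial.map_map]
      have h2 : (algebraMap F₁ N).comp (aeval (⟨x j, hxF j⟩ : F₁) : K[X] →ₐ[K] F₁).toRingHom =
          (Polynomial.aeval (x j) : K[X] →ₐ[K] N).toRingHom := by
        refine RingHom.ext fun P => ?_
        show algebraMap F₁ N (aeval (⟨x j, hxF j⟩ : F₁) P) = aeval (x j) P
        rw [← aeval_algebraMap_apply]
        rfl
      rw [h2]
      exact h1
    exact hint.isAlgebraic
  -- the coefficients
  have hνL : ∀ a, ν a ∈ L := by
    refine solve_mem L (fun j => x j ^ p) ?_ (fun j => pow_mem (hxL j) p) ν ?_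
    · intro i j hij
      exact hx (frobenius_inj N p hij)
    · intro j
      obtain ⟨-, h2, h3⟩ := hpt j
      have h4 : (GG D p B ν).eval (x j) = x j * (aeval (x j) D) ^ p +
          (x j ^ B * aeval (x j) D + 1) ^ p +
          (aeval (x j) D) ^ p * ∑ a : Fin m, ν a * (x j ^ p) ^ (a : ℕ) := by
        unfold GG
        simp only [eval_add, eval_mul, eval_X, eval_pow, eval_map_algebraMap, eval_one,
          eval_finsetSum, eval_C, pow_mul]
      rw [h4] at h3
      have h5 : ∑ a : Fin m, ν a * (x j ^ p) ^ (a : ℕ) = (s * (aeval (x j) D * θ j) ^ p -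
          (x j * (aeval (x j) D) ^ p + (x j ^ B * aeval (x j) D + 1) ^ p)) /
          (aeval (x j) D) ^ p := by
        rw [eq_div_iff (pow_ne_zero p h2), ← h3]
        ring
      rw [h5]
      have hD' := hpolyL D j
      refine div_mem (sub_mem (mul_mem hsL (pow_mem (mul_mem hD' (hθL j)) p)) (add_mem
        (mul_mem (hxL j) (pow_mem hD' p))
        (pow_mem (add_mem (mul_mem (pow_mem (hxL j) B) hD') (one_mem _)) p))) (pow_mem hD' p)
  -- `N` is algebraic over `F₁`
  let M : IntermediateField K₀ N :=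
    IntermediateField.adjoin K₀ (Set.range (fun o : Option (Fin m) => o.elim s ν))
  have hMN : Algebra.IsAlgebraic M N := hb.isAlgebraic_field
  have hML : M ≤ L.restrictScalars K₀ := by
    refine IntermediateField.adjoin_le_iff.2 ?_
    rintro _ ⟨o, rfl⟩
    cases o with
    | none => exact hsL
    | some a => exact hνL a
  have hML' : ∀ z : M, (algebraMap M N) z ∈ L := fun z => hML z.2
  have hN : Algebra.IsAlgebraic F₁ N := by
    let _ : Algebra M L := ((algebraMap M N).codRestrict L hML').toAlgebra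
    have : IsScalarTower M L N := IsScalarTower.of_algebraMap_eq fun _ => rfl
    have hLF : Algebra.IsAlgebraic F₁ L := algebraicClosure.isAlgebraic F₁ N
    refine ⟨fun z => ?_⟩
    have h1 : IsAlgebraic M z := hMN.isAlgebraic z
    have h2 : IsAlgebraic L z := h1.tower_top L
    exact h2.restrictScalars F₁
  have hN' : Algebra.IsAlgebraic (Algebra.adjoin K₀ (Set.range y)) N :=
    IntermediateField.isAlgebraic_adjoin_iff_top.1 hN
  have hcard : Cardinal.mk (Fin m ⊕ Unit) ≤ Algebra.trdeg K₀ N := by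
    rw [← hb.cardinalMk_eq_trdeg]
    simp
  have hbas : IsTranscendenceBasis K₀ y :=
    Algebra.IsAlgebraic.isTranscendenceBasis_of_le_trdeg_of_finite K₀ y hcard
  have h1 := (AlgebraicIndependent.sumElim_iff.1 hbas.1).2
  have h2 := IntermediateField.algebraicIndependent_adjoin_iff.2 h1
  have h3 : Set.range (fun _ : Unit => s) = {s} := Set.range_const
  rw [h3] at h2
  exact h2

end Pool.Agent.Y686.AW
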